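import Pool.Agent.Helper344_HI.E

set_option autoImplicit false

namespace Pool.Agent.Results.MP_0c99a5_co.HyperIrregular

/-- The `F`-degree of the vertex `v` of `G`: the number of (not necessarily induced) subgraphs of
`G` that are isomorphic to `F` and contain `v`. -/
noncomputable def FDegree {W V : Type} (F : SimpleGraph W) (G : SimpleGraph V) (v : V) : ℕ :=
  {H : G.Subgraph | Nonempty (H.coe ≃g F) ∧ v ∈ H.verts}.ncard

/-- `G` is `F`-irregular: any two distinct vertices have different `F`-degrees. -/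
def FIrregular {W V : Type} (F : SimpleGraph W) (G : SimpleGraph V) : Prop :=
  ∀ u v : V, u ≠ v → FDegree F G u ≠ FDegree F G v

/-- `G` is `n`-hyper-irregular: it is `F`-irregular simultaneously for every graph `F` on at most
`n` vertices with at least two edges. -/
def HyperIrr (n : ℕ) {V : Type} (G : SimpleGraph V) : Prop :=
  ∀ (W : Type) [Fintype W] (F : SimpleGraph W), Fintype.card W ≤ n → 2 ≤ F.edgeSet.ncard →
    FIrregular F G

/-- For every `n ≥ 3` there are infinitely many pairwise non-isomorphic (finite, non-trivial)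
`n`-hyper-irregular graphs. -/
theorem result : ∀ n : ℕ, 3 ≤ n →
    ∃ (m : ℕ → ℕ) (G : ∀ i, SimpleGraph (Fin (m i))),
      (∀ i, 2 ≤ m i ∧ HyperIrr n (G i)) ∧ ∀ i j, i ≠ j → IsEmpty (G i ≃g G j) := by
  intro n hn
  apply Pool.Agent.Helper344HI.infinitely
    (P := fun m (G : SimpleGraph (Fin m)) => 2 ≤ m ∧ HyperIrr n G)
  intro K
  obtain ⟨m, G, hm, hG⟩ := Pool.Agent.Helper344HI.big n hn (K + 2)
  refine ⟨m, G, by omega, by omega, ?_⟩
  intro W _ F hW hF u v huv hdeg
  have e : Fin (Fintype.card W) ≃ W := (Fintype.equivFin W).symm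
  have i : F.comap e ≃g F := SimpleGraph.Iso.comap e F
  have hE : 2 ≤ (F.comap e).edgeSet.ncard := by
    have : (F.comap e).edgeSet.ncard = F.edgeSet.ncard := by
      rw [← Nat.card_coe_set_eq, ← Nat.card_coe_set_eq]
      exact Nat.card_congr i.mapEdgeSet
    rw [this]
    exact hF
  have key : ∀ v : Fin m, {H : G.Subgraph | Nonempty (H.coe ≃g F) ∧ v ∈ H.verts} =
      {H : G.Subgraph | Nonempty (H.coe ≃g F.comap e) ∧ v ∈ H.verts} := by
    intro v
    ext H
    constructor
    · rintro ⟨⟨j⟩, hv⟩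
      exact ⟨⟨j.trans i.symm⟩, hv⟩
    · rintro ⟨⟨j⟩, hv⟩
      exact ⟨⟨j.trans i⟩, hv⟩
  apply huv
  apply hG _ hW (F.comap e) hE
  unfold FDegree at hdeg
  simp only [key] at hdeg
  exact hdeg

end Pool.Agent.Results.MP_0c99a5_co.HyperIrregular
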